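import Mathlib
import Pool.Agent.KS6_87.RvmSum

/-!
# Monochromatic sumsets in abelian groups from a total atomless measure
-/

set_option autoImplicit false

namespace Pool.Agent.Results.MP_dcd8e0_lc.AllGroups

open MeasureTheory Cardinal ENNReal

/-- `I` carries a countably additive probability measure defined on all its subsets and vanishing
on points (such sets exist iff there is a real-valued measurable cardinal; the least cardinality
of such a set is real-valued measurable). -/
def CarriesMeasure (I : Type) : Prop :=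
  ∃ m : Set I → ℝ≥0∞, m Set.univ = 1 ∧ (∀ x, m {x} = 0) ∧
    ∀ f : ℕ → Set I, Pairwise (Function.onFun Disjoint f) → m (⋃ n, f n) = ∑' n, m (f n)

/-- every finite colouring of `A` is constant on `X + X` for some infinite `X` -/
def FiniteColourings (A : Type) [AddCommGroup A] : Prop :=
  ∀ (r : ℕ) (c : A → Fin r), ∃ X : Set A, X.Infinite ∧ ∃ k, ∀ x ∈ X, ∀ y ∈ X, c (x + y) = k

/-- some countable colouring of `A` is constant on no `X + X` with `X` infinite -/
def BadCountableColouring (A : Type) [AddCommGroup A] : Prop :=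
  ∃ c : A → ℕ, ∀ X : Set A, X.Infinite → ¬ ∃ k, ∀ x ∈ X, ∀ y ∈ X, c (x + y) = k

/-- the set `2A` of doubles -/
abbrev Doubles (A : Type) [AddCommGroup A] : Type := {a : A // ∃ x : A, x + x = a}

lemma toMeasure {I : Type} (h : CarriesMeasure I) :
    ∃ ν : @Measure I ⊤, ν Set.univ = 1 ∧ ∀ x, ν {x} = 0 := by
  obtain ⟨m, h1, h2, h3⟩ := h
  letI : MeasurableSpace I := ⊤
  have he : m ∅ = 0 := by
    have h4 := h3 (fun n => if n = 0 then Set.univ else ∅) (by
      intro i j hij
      simp only [Function.onFun]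
      rcases Nat.eq_zero_or_pos i with rfl | hi
      · rw [if_neg (show j ≠ 0 from fun h => hij h.symm)]
        exact disjoint_bot_right
      · rw [if_neg hi.ne']
        exact disjoint_bot_left)
    have h5 : (⋃ n : ℕ, if n = 0 then (Set.univ : Set I) else ∅) = Set.univ :=
      Set.eq_univ_of_forall fun x => Set.mem_iUnion.2 ⟨0, by simp⟩
    rw [h5, h1] at h4
    have h6 : m Set.univ + m ∅ ≤ ∑' n : ℕ, m (if n = 0 then Set.univ else ∅) := by
      have := ENNReal.sum_le_tsum (f := fun n : ℕ => m (if n = 0 then Set.univ else ∅))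
        (Finset.range 2)
      simpa [Finset.sum_range_succ] using this
    rw [← h4, h1] at h6
    have h7 : (1 : ℝ≥0∞) + m ∅ ≤ 1 + 0 := by simpa using h6
    exact le_antisymm ((ENNReal.add_le_add_iff_left (by simp)).1 h7) bot_le
  let ν : Measure I := Measure.ofMeasurable (fun s _ => m s) he (fun f _ hd => h3 f hd)
  have hν : ∀ s, ν s = m s := fun s => Measure.ofMeasurable_apply s trivial
  exact ⟨ν, by rw [hν, h1], fun x => by rw [hν, h2]⟩

theorem finite_of (A : Type) [AddCommGroup A] (I : Type) (hI : CarriesMeasure I)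
    (hc : #I ≤ #(Doubles A)) : FiniteColourings A := by
  intro r c
  obtain ⟨ν, h1, h2⟩ := toMeasure hI
  let D : AddSubgroup A :=
    { carrier := {a | ∃ x : A, x + x = a}
      add_mem' := by
        rintro _ _ ⟨x, rfl⟩ ⟨y, rfl⟩
        exact ⟨x + y, by abel⟩
      zero_mem' := ⟨0, by simp⟩
      neg_mem' := by
        rintro _ ⟨x, rfl⟩
        exact ⟨-x, by abel⟩ }
  obtain ⟨g⟩ : Nonempty (I ↪ D) := (Cardinal.le_def _ _).1 hc
  letI : MeasurableSpace I := ⊤
  letI : MeasurableSpace D := ⊤
  haveI : DiscreteMeasurableSpace D := ⟨fun _ => trivial⟩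
  haveI : DiscreteMeasurableSpace I := ⟨fun _ => trivial⟩
  have gm : Measurable g := Measurable.of_discrete
  haveI : IsProbabilityMeasure (ν.map g) := ⟨by
    rw [Measure.map_apply gm MeasurableSet.univ]; simpa using h1⟩
  haveI : NullSingletonClass (ν.map g) := ⟨fun x => by
    rw [Measure.map_apply gm (MeasurableSet.of_discrete)]
    rcases (g ⁻¹' {x}).eq_empty_or_nonempty with h | ⟨i, hi⟩
    · rw [h]; exact measure_empty
    · have : g ⁻¹' {x} = {i} := by
        ext j
        simp only [Set.mem_preimage, Set.mem_singleton_iff] at hi ⊢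
        constructor
        · intro h; exact g.injective (h.trans hi.symm)
        · rintro rfl; exact hi
      rw [this]; exact h2 i⟩
  obtain ⟨a, k, X, hX, h⟩ := KS6_87.RvmSum.main (ν.map g) r (fun x : D => c x)
  obtain ⟨b, hb⟩ : ∃ b : A, b + b = a := a.2
  refine ⟨(fun x : D => b + x) '' X, hX.image fun x _ y _ hxy =>
    Subtype.ext (add_left_cancel hxy), k, ?_⟩
  rintro _ ⟨x, hx, rfl⟩ _ ⟨y, hy, rfl⟩
  rw [← h x hx y hy]
  congr 1
  push_cast
  rw [← hb]
  abel

/-- the colouring of a rational vector space by the sum of squares of the coordinates -/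
theorem bad_vector (V : Type) [AddCommGroup V] [Module ℚ V] :
    ∃ c : V → ℕ, ∀ x y, c (x + y) = c (x + x) → c (x + x) = c (y + y) → x = y := by
  let b := Module.Basis.ofVectorSpace ℚ V
  let N : V → ℚ := fun x => (b.repr x).sum fun _ t => t ^ 2
  refine ⟨fun x => Encodable.encode (N x), fun x y e1 e2 => ?_⟩
  have e1 := Encodable.encode_injective e1
  have e2 := Encodable.encode_injective e2
  classical
  have hN : ∀ z : V, (b.repr z).support ⊆ (b.repr x).support ∪ (b.repr y).support →
      N z = ∑ i ∈ (b.repr x).support ∪ (b.repr y).support, (b.repr z i) ^ 2 := fun z hz =>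
    Finsupp.sum_of_support_subset _ hz _ (by simp)
  have hs : ∀ u w : V, (b.repr u).support ⊆ (b.repr x).support ∪ (b.repr y).support →
      (b.repr w).support ⊆ (b.repr x).support ∪ (b.repr y).support →
      (b.repr (u + w)).support ⊆ (b.repr x).support ∪ (b.repr y).support := by
    intro u w hu hw
    rw [map_add]
    exact Finsupp.support_add.trans (Finset.union_subset hu hw)
  have hx := Finset.subset_union_left (s₁ := (b.repr x).support) (s₂ := (b.repr y).support)
  have hy := Finset.subset_union_right (s₁ := (b.repr x).support) (s₂ := (b.repr y).support)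
  rw [hN _ (hs _ _ hx hy), hN _ (hs _ _ hx hx)] at e1
  rw [hN _ (hs _ _ hx hx), hN _ (hs _ _ hy hy)] at e2
  have e3 : ∑ i ∈ (b.repr x).support ∪ (b.repr y).support, (b.repr x i - b.repr y i) ^ 2 = 0 := by
    have : ∀ i, (b.repr x i - b.repr y i) ^ 2 =
        ((b.repr (x + x) i) ^ 2 + (b.repr (y + y) i) ^ 2) / 2 - (b.repr (x + y) i) ^ 2 := by
      intro i
      simp only [map_add, Finsupp.add_apply]
      ring
    simp only [this, Finset.sum_sub_distrib, ← Finset.sum_div, Finset.sum_add_distrib]
    rw [← e2, e1]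
    ring
  rw [Finset.sum_eq_zero_iff_of_nonneg (fun _ _ => sq_nonneg _)] at e3
  apply b.repr.injective
  ext i
  by_cases hi : i ∈ (b.repr x).support ∪ (b.repr y).support
  · exact sub_eq_zero.1 (pow_eq_zero_iff two_ne_zero |>.1 (e3 i hi))
  · simp only [Finset.mem_union, Finsupp.mem_support_iff, not_or, not_not] at hi
    rw [hi.1, hi.2]

theorem bad_torsionFree (A : Type) [AddCommGroup A] [IsAddTorsionFree A] :
    BadCountableColouring A := by
  obtain ⟨c, hc⟩ := bad_vector (DivisibleHull A)
  refine ⟨fun x => c (DivisibleHull.coeAddMonoidHom A x), fun X hX ⟨k, hk⟩ => ?_⟩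
  obtain ⟨x, hx, y, hy, hxy⟩ := hX.nontrivial
  refine hxy (DivisibleHull.coe_injective (hc _ _ ?_ ?_))
  · have h1 := hk x hx y hy
    have h2 := hk x hx x hx
    simp only [map_add] at h1 h2
    exact h1.trans h2.symm
  · have h1 := hk x hx x hx
    have h2 := hk y hy y hy
    simp only [map_add] at h1 h2
    exact h1.trans h2.symm

theorem doubles_torsionFree (A : Type) [AddCommGroup A] [IsAddTorsionFree A] :
    #(Doubles A) = #A := by
  refine le_antisymm (Cardinal.mk_subtype_le _) ?_
  refine Cardinal.mk_le_of_injective (f := fun x : A => (⟨x + x, x, rfl⟩ : Doubles A)) ?_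
  intro x y hxy
  have h1 : x + x = y + y := congrArg Subtype.val hxy
  rw [← two_nsmul, ← two_nsmul] at h1
  exact nsmul_right_injective two_ne_zero h1

theorem finiteDoubles (A : Type) [AddCommGroup A] (h : Finite (Doubles A)) :
    ∃ c : A → Fin 2, ∀ X : Set A, X.Infinite → ¬ ∃ k, ∀ x ∈ X, ∀ y ∈ X, c (x + y) = k := by
  classical
  refine ⟨fun a => if ∃ x : A, x + x = a then 1 else 0, fun X hX ⟨k, hk⟩ => ?_⟩
  beta_reduce at hk
  obtain ⟨x, hx⟩ := hX.nonempty
  have h1 := hk x hx x hx
  rw [if_pos ⟨x, rfl⟩] at h1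
  subst h1
  have h2 : ∀ y ∈ X, ∃ z : A, z + z = x + y := fun y hy => by
    by_contra hc
    have := hk x hx y hy
    rw [if_neg hc] at this
    exact zero_ne_one this
  have h3 : {a : A | ∃ z : A, z + z = a}.Finite := Set.finite_coe_iff.1 h
  refine hX ((h3.preimage (f := fun y => x + y) ((add_right_injective x).injOn)).subset ?_)
  exact fun y hy => h2 y hy

/-- **Monochromatic sumsets in abelian groups from a total atomless measure.** -/
theorem result :
    (∀ (A : Type) [AddCommGroup A] (I : Type), CarriesMeasure I → #I ≤ #(Doubles A) →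
      FiniteColourings A) ∧
    (∀ (A : Type) [AddCommGroup A], Finite (Doubles A) →
      ∃ c : A → Fin 2, ∀ X : Set A, X.Infinite → ¬ ∃ k, ∀ x ∈ X, ∀ y ∈ X, c (x + y) = k) ∧
    (∀ (A : Type) [AddCommGroup A] [IsAddTorsionFree A], BadCountableColouring A) ∧
    (∀ (A : Type) [AddCommGroup A] [IsAddTorsionFree A] (I : Type), CarriesMeasure I → #I ≤ #A →
      FiniteColourings A ∧ BadCountableColouring A) ∧
    (∀ I : Type, CarriesMeasure I → #I ≤ continuum →
      FiniteColourings ℝ ∧ BadCountableColouring ℝ) ∧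
    (∀ m : Set ℝ → ℝ≥0∞,
      (∀ f : ℕ → Set ℝ, Pairwise (Function.onFun Disjoint f) → m (⋃ n, f n) = ∑' n, m (f n)) →
      (∀ s, MeasurableSet s → m s = volume s) →
      FiniteColourings ℝ ∧ BadCountableColouring ℝ) := by
  have h4 : ∀ (A : Type) [AddCommGroup A] [IsAddTorsionFree A] (I : Type), CarriesMeasure I →
      #I ≤ #A → FiniteColourings A ∧ BadCountableColouring A := fun A _ _ I hI hc =>
    ⟨finite_of A I hI (hc.trans (doubles_torsionFree A).ge), bad_torsionFree A⟩
  refine ⟨fun A _ I hI hc => finite_of A I hI hc, fun A _ h => finiteDoubles A h,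
    fun A _ _ => bad_torsionFree A, fun A _ _ I hI hc => h4 A I hI hc,
    fun I hI hc => h4 ℝ I hI (hc.trans_eq Cardinal.mk_real.symm), fun m h1 h2 => ?_⟩
  refine h4 ℝ ℝ ⟨fun s => m (s ∩ Set.Icc 0 1), ?_, fun x => ?_, fun f hf => ?_⟩ le_rfl
  · simp only [Set.univ_inter]
    rw [h2 _ measurableSet_Icc]
    simp
  · simp only
    rw [h2 _ ((measurableSet_singleton x).inter measurableSet_Icc)]
    exact measure_mono_null Set.inter_subset_left (Real.volume_singleton)
  · simp only
    rw [Set.iUnion_inter]
    exact h1 _ fun i j hij => (hf hij).mono Set.inter_subset_left Set.inter_subset_left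

end Pool.Agent.Results.MP_dcd8e0_lc.AllGroups
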